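import Pool.Agent.H81.D3.Targets

/-!
MP_ee74d2_an, dimension 3, board d3n_modules, row BA2: the trivial bound.
-/

set_option autoImplicit false

namespace Pool.Agent.H50.D3

open MeasureTheory Set
open Pool.Agent.H83.G Pool.Agent.H81.D3
open scoped ENNReal NNReal RealInnerProductSpace

/-- the support of a function of the class is bounded -/
theorem rg_bd {m : ℕ} {R : ℝ} (hR : 1 ≤ R) {ζ : Z m} (h : ζ ∈ Rg m (1 / 4) R⁻¹) : ‖ζ‖ ≤ 60 := by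
  obtain ⟨h1, h2, h3, h4⟩ := h
  have ha : 0 < ζ.1 := by linarith
  have hRi : R⁻¹ ≤ 1 := inv_le_one_of_one_le₀ hR
  have hx0 : 0 ≤ ‖ζ.2.1‖ := norm_nonneg _
  have hx : ‖ζ.2.1‖ ≤ 6 := by nlinarith
  have hq : ‖ζ.2.1‖ ^ 2 / ζ.1 ≤ 10 := by
    rw [div_le_iff₀ ha]
    nlinarith
  have hq0 : 0 ≤ ‖ζ.2.1‖ ^ 2 / ζ.1 := by positivity
  have h5 := abs_le.1 h4
  have hb : |ζ.2.2| ≤ 60 := by
    rw [abs_le]
    constructor <;> nlinarith [h5.1, h5.2]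
  have hz : ‖ζ‖ = max |ζ.1| (max ‖ζ.2.1‖ |ζ.2.2|) := by
    rw [Prod.norm_def, Prod.norm_def, Real.norm_eq_abs, Real.norm_eq_abs]
  rw [hz]
  refine max_le ?_ (max_le ?_ hb)
  · rw [abs_of_pos ha]; linarith
  · linarith

theorem pf_BA2 (hSPW : T_SPW) (hPLN : T_PLN) : T_BA2 := by
  intro L
  obtain ⟨C, hC⟩ := hSPW 2 0 60 2 1 (by norm_num) (by norm_num)
  refine ⟨(C : ℝ) + 1, by linarith [C.coe_nonneg], ?_⟩
  intro R A H G X hR hH hcls hsep hX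
  have hTC := hcls.1
  have h1 := hC G X (fun _ => 1) hTC (fun ζ hζ => rg_bd hR (hcls.2.1 ζ hζ)) hsep measurable_const
    (by intro z z'; simp)
  simp only [mul_one] at h1
  have e2 : ∀ z : Z 2, ‖TF G z‖ₑ ^ (2 : ℝ) = ‖TF G z‖ₑ ^ 2 := by
    intro z
    rw [← ENNReal.rpow_natCast]; norm_num
  simp only [e2] at h1
  rw [(hPLN 2 G hTC).1] at h1
  have hI : 0 ≤ ∫ ζ, ‖G ζ‖ ^ 2 := integral_nonneg fun ζ => by positivity
  have h3 : ENNReal.ofReal ((X.card : ℝ) * H ^ 2) ≤ ENNReal.ofReal ((C : ℝ) * ∫ ζ, ‖G ζ‖ ^ 2) := by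
    rw [ENNReal.ofReal_mul (Nat.cast_nonneg _), ENNReal.ofReal_natCast]
    rw [ENNReal.ofReal_mul C.coe_nonneg, ENNReal.ofReal_coe_nnreal]
    refine le_trans ?_ h1
    have h4 : ∀ z ∈ X, ENNReal.ofReal (H ^ 2) ≤ ‖TF G z‖ₑ ^ 2 := by
      intro z hz
      rw [ENNReal.ofReal_pow hH]
      refine pow_le_pow_left' ?_ 2
      rw [← ofReal_norm]
      exact ENNReal.ofReal_le_ofReal (hX z hz)
    calc (X.card : ℝ≥0∞) * ENNReal.ofReal (H ^ 2) = ∑ z ∈ X, ENNReal.ofReal (H ^ 2) := by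
          rw [Finset.sum_const, nsmul_eq_mul]
      _ ≤ _ := Finset.sum_le_sum h4
  have h5 := (ENNReal.ofReal_le_ofReal_iff (by positivity)).1 h3
  nlinarith

end Pool.Agent.H50.D3
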