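import Pool.Agent.H81.D3.Targets

/-!
MP_ee74d2_an, dimension 3, board d3n_modules, row GL1: the quadric at the centres of the planks.
-/

set_option autoImplicit false

namespace Pool.Agent.H50.D3

open MeasureTheory Set
open Pool.Agent.H83.G Pool.Agent.H81.D3
open Pool.Agent.H91.EL
open Pool.Agent.H92.EZ (sgm dsg ldz Qd)
open Pool.Agent.H81.GT (Qz)
open scoped ENNReal NNReal RealInnerProductSpace

/-- the dual vector of `g` -/
noncomputable def dv (g : Z 2) : Z 2 := (2 * g.2.2, -g.2.1, 2 * g.1)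

theorem ph_dv (d g : Z 2) : ph d (dv g) = qB g d := by
  unfold ph dv qB
  simp only [inner_neg_right]
  rw [real_inner_comm g.2.1 d.2.1]
  ring

theorem norm_dv (g : Z 2) : ‖g‖ ≤ ‖dv g‖ := by
  have h1 := norm_fst_le' (dv g)
  have h2 := norm_y_le (dv g)
  have h3 := norm_w_le (dv g)
  simp only [dv] at h1 h2 h3
  rw [abs_mul, abs_two] at h1 h3
  rw [norm_neg] at h2
  change 2 * |g.2.2| ≤ ‖dv g‖ at h1
  change ‖g.2.1‖ ≤ ‖dv g‖ at h2
  change 2 * |g.1| ≤ ‖dv g‖ at h3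
  have e : ‖g‖ = max |g.1| (max ‖g.2.1‖ |g.2.2|) := by
    rw [Prod.norm_def, Prod.norm_def, Real.norm_eq_abs, Real.norm_eq_abs]
  rw [e]
  have a1 := abs_nonneg g.1
  have a2 := abs_nonneg g.2.2
  exact max_le (by linarith) (max_le h2 (by linarith))

theorem Qd_eq (d : Z 2) : Qd d = -qQ d := by
  unfold Qd qQ qB
  rw [real_inner_self_eq_norm_sq]
  ring

theorem Qz_eq (d : Z 2) (η : E 2) : 2 * Qz d η = qB (ll η) d := by
  rw [qB_ll]; rfl

theorem ldz_eq (η : E 2) : ldz η = ll η := by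
  unfold ldz ll
  rw [neg_smul]

theorem sgm_eq (lam : ℝ) (nn a c₀ y : Z 2) (M : ℝ) :
    sgm (-lam / M) (M⁻¹ • dv (gr lam nn a c₀)) (Sg lam nn a c₀ / M) (y - c₀) =
      Sg lam nn a y / M := by
  have h1 : Sg lam nn a y = -lam * Qd (y - c₀) + ph (y - c₀) (dv (gr lam nn a c₀)) +
      Sg lam nn a c₀ := by
    rw [ph_dv, Qd_eq]
    unfold Sg gr
    have e : y - a = (y - c₀) + (c₀ - a) := by abel
    rw [e, qQ_add, qB_add_left, qB_smul_left, qB_smul_left, qB_add_right,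
      qB_comm (y - c₀) (c₀ - a)]
    ring
  have h2 : ph (y - c₀) (M⁻¹ • dv (gr lam nn a c₀)) =
      M⁻¹ * ph (y - c₀) (dv (gr lam nn a c₀)) := by
    unfold ph
    simp only [Prod.smul_fst, Prod.smul_snd, inner_smul_right, smul_eq_mul]
    ring
  unfold sgm
  rw [h1, h2]
  ring

theorem dsg_eq (lam : ℝ) (nn a c₀ y : Z 2) (M : ℝ) (η : E 2) :
    dsg (-lam / M) (M⁻¹ • dv (gr lam nn a c₀)) (y - c₀) η =
      qB (gr lam nn a y) (ll η) / M := by
  have h2 : ph (ll η) (M⁻¹ • dv (gr lam nn a c₀)) =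
      M⁻¹ * qB (gr lam nn a c₀) (ll η) := by
    rw [← ph_dv]
    unfold ph
    simp only [Prod.smul_fst, Prod.smul_snd, inner_smul_right, smul_eq_mul]
    ring
  have h3 : qB (gr lam nn a y) (ll η) = qB (gr lam nn a c₀) (ll η) +
      2 * lam * (2 * Qz (y - c₀) η) := by
    rw [Qz_eq]
    unfold gr
    have e : y - a = (y - c₀) + (c₀ - a) := by abel
    rw [e, smul_add, qB_add_left, qB_add_left, qB_add_left, qB_smul_left, qB_comm (y - c₀)]
    ring
  unfold dsg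
  rw [ldz_eq, h2, h3]
  ring

/-- the values at the centre of a plank -/
theorem sg_gr {ρ D K lam : ℝ} {nn a z y : Z 2} {η : E 2} (hρ : 1 ≤ ρ) (hD : 1 ≤ D) (hK : 1 ≤ K)
    (hKρ : K ≤ ρ) (hn : ‖nn‖ = 1) (hl : |lam| * ρ ^ 2 ≤ D) (ha : ‖a‖ ≤ ρ ^ 2) (hz : ‖z‖ ≤ ρ ^ 2)
    (hη : ‖η‖ ≤ 3) (hL : ‖Lo η ρ⁻¹ (y - z)‖ ≤ D) (hS : |Sg lam nn a z| ≤ D * ρ ^ 2 / K)
    (hG : |qB (gr lam nn a z) (ll η)| ≤ D / K) :
    |Sg lam nn a y| ≤ 127 * D ^ 3 * ρ ^ 2 / K ∧
      |qB (gr lam nn a y) (ll η)| ≤ 5 * D ^ 2 / K := by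
  obtain ⟨e, he, he3, he2, hqe, hen⟩ := dec hρ hD hη hL
  have hρ0 : 0 < ρ := by linarith
  have hK0 : 0 < K := by linarith
  have hl0 : 0 ≤ |lam| := abs_nonneg _
  set t : ℝ := y.2.2 - z.2.2 with ht
  have hlam : |lam| ≤ D := le_trans (le_mul_of_one_le_right hl0 (one_le_pow₀ hρ)) hl
  have htb : |t| ≤ D * ρ ^ 2 := by
    have h3 := (norm_w_le (Lo η ρ⁻¹ (y - z))).trans hL
    have h4 : (Lo η ρ⁻¹ (y - z)).2.2 = ρ⁻¹ ^ 2 * t := rfl
    rw [h4, abs_mul, abs_of_pos (by positivity), inv_pow, inv_mul_le_iff₀ (by positivity)] at h3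
    linarith
  have hρK : ρ ≤ ρ ^ 2 / K := by
    rw [le_div_iff₀ hK0]; nlinarith
  have h1K : 1 ≤ ρ ^ 2 / K := hρ.trans hρK
  have hρK0 : 0 ≤ ρ ^ 2 / K := by positivity
  -- the norm of the gradient
  have hgn : ‖gr lam nn a z‖ ≤ 4 * D + 2 := by
    unfold gr
    refine (norm_add_le _ _).trans ?_
    rw [norm_smul, norm_smul, hn, Real.norm_eq_abs, Real.norm_eq_abs, abs_mul, abs_two]
    have h5 : ‖z - a‖ ≤ 2 * ρ ^ 2 := (norm_sub_le _ _).trans (by linarith)
    have h6 : |lam| * ‖z - a‖ ≤ |lam| * (2 * ρ ^ 2) := mul_le_mul_of_nonneg_left h5 hl0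
    nlinarith
  have hy : y = z + (t • ll η + e) := by
    rw [← he]; abel
  have hqB : qB (ll η) (ll η) = 0 := qQ_ll η
  have hS1 : Sg lam nn a y = Sg lam nn a z + (t * qB (gr lam nn a z) (ll η) +
      qB (gr lam nn a z) e) + lam * (2 * (t * qB (ll η) e) + qQ e) := by
    have e1 : y - a = (z - a) + (t • ll η + e) := by rw [hy]; abel
    have e2 : qQ (t • ll η + e) = 2 * (t * qB (ll η) e) + qQ e := by
      rw [qQ_add, qQ_smul, qQ_ll, qB_smul_left]; ring
    have e3 : qB (gr lam nn a z) (t • ll η + e) = t * qB (gr lam nn a z) (ll η) +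
        qB (gr lam nn a z) e := by
      rw [qB_add_right, qB_smul_right]
    rw [← e2, ← e3]
    unfold Sg gr
    rw [e1]
    generalize t • ll η + e = u
    rw [qQ_add, qB_add_right, qB_add_left, qB_smul_left, qB_smul_left]
    ring
  have hG1 : qB (gr lam nn a y) (ll η) = qB (gr lam nn a z) (ll η) +
      2 * lam * qB (ll η) e := by
    unfold gr
    have e1 : y - a = (z - a) + (t • ll η + e) := by rw [hy]; abel
    rw [e1, smul_add, qB_add_left, qB_add_left, qB_add_left, qB_smul_left, qB_smul_left,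
      qB_smul_left, qB_add_left, qB_smul_left, hqB, qB_comm e]
    ring
  -- bounds of the terms
  have b1 : |t * qB (gr lam nn a z) (ll η)| ≤ D ^ 2 * (ρ ^ 2 / K) := by
    rw [abs_mul]
    calc |t| * |qB (gr lam nn a z) (ll η)| ≤ (D * ρ ^ 2) * (D / K) :=
          mul_le_mul htb hG (abs_nonneg _) (by positivity)
      _ = D ^ 2 * (ρ ^ 2 / K) := by ring
  have b2 : |qB (gr lam nn a z) e| ≤ 120 * D ^ 2 * (ρ ^ 2 / K) := by
    refine (abs_qB_le _ _).trans ?_
    have h7 : ‖gr lam nn a z‖ * ‖e‖ ≤ (4 * D + 2) * (4 * (D * ρ)) :=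
      mul_le_mul hgn hen (norm_nonneg _) (by positivity)
    have h8 : (4 * D + 2) * (4 * (D * ρ)) ≤ (6 * D) * (4 * (D * (ρ ^ 2 / K))) := by
      refine mul_le_mul (by linarith) ?_ (by positivity) (by positivity)
      have := mul_le_mul_of_nonneg_left hρK (show (0:ℝ) ≤ 4 * D by positivity)
      linarith
    nlinarith
  have hqe2 : |qQ e| ≤ D ^ 2 * ρ ^ 2 := by
    have h9 : qQ e = -‖e.2.1‖ ^ 2 := by
      unfold qQ qB
      rw [he3, real_inner_self_eq_norm_sq]; ring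
    rw [h9, abs_neg, abs_of_nonneg (by positivity)]
    have := pow_le_pow_left₀ (norm_nonneg _) he2 2
    nlinarith
  have b3 : |lam * (2 * (t * qB (ll η) e) + qQ e)| ≤ 5 * D ^ 3 := by
    rw [abs_mul]
    have h10 : |2 * (t * qB (ll η) e) + qQ e| ≤ 5 * D ^ 2 * ρ ^ 2 := by
      refine (abs_add_le _ _).trans ?_
      rw [abs_mul, abs_two, abs_mul]
      have h11 : |t| * |qB (ll η) e| ≤ (D * ρ ^ 2) * (2 * D) :=
        mul_le_mul htb hqe (abs_nonneg _) (by positivity)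
      nlinarith
    calc |lam| * |2 * (t * qB (ll η) e) + qQ e| ≤ |lam| * (5 * D ^ 2 * ρ ^ 2) :=
          mul_le_mul_of_nonneg_left h10 hl0
      _ = 5 * D ^ 2 * (|lam| * ρ ^ 2) := by ring
      _ ≤ 5 * D ^ 2 * D := mul_le_mul_of_nonneg_left hl (by positivity)
      _ = 5 * D ^ 3 := by ring
  have hD2 : D ^ 2 ≤ D ^ 3 := pow_le_pow_right₀ hD (by norm_num)
  have hD1 : D ≤ D ^ 3 := by
    have := pow_le_pow_right₀ hD (show 1 ≤ 3 by norm_num)
    simpa using this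
  constructor
  · rw [hS1]
    have c1 : |Sg lam nn a z + (t * qB (gr lam nn a z) (ll η) + qB (gr lam nn a z) e) +
        lam * (2 * (t * qB (ll η) e) + qQ e)| ≤ |Sg lam nn a z| +
        (|t * qB (gr lam nn a z) (ll η)| + |qB (gr lam nn a z) e|) +
        |lam * (2 * (t * qB (ll η) e) + qQ e)| := by
      refine (abs_add_le _ _).trans ?_
      gcongr
      refine (abs_add_le _ _).trans ?_
      gcongr
      exact abs_add_le _ _
    refine c1.trans ?_
    have d1 : D * ρ ^ 2 / K = D * (ρ ^ 2 / K) := by ring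
    have d2 : 127 * D ^ 3 * ρ ^ 2 / K = 127 * D ^ 3 * (ρ ^ 2 / K) := by ring
    rw [d1] at hS
    rw [d2]
    have d3 : D * (ρ ^ 2 / K) ≤ D ^ 3 * (ρ ^ 2 / K) := mul_le_mul_of_nonneg_right hD1 hρK0
    have d4 : D ^ 2 * (ρ ^ 2 / K) ≤ D ^ 3 * (ρ ^ 2 / K) := mul_le_mul_of_nonneg_right hD2 hρK0
    have d5 : D ^ 3 ≤ D ^ 3 * (ρ ^ 2 / K) := le_mul_of_one_le_right (by positivity) h1K
    linarith
  · rw [hG1]
    refine (abs_add_le _ _).trans ?_
    have c2 : |2 * lam * qB (ll η) e| ≤ 4 * D ^ 2 / K := by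
      rw [abs_mul, abs_mul, abs_two]
      have h12 : |lam| ≤ D / K := by
        have h13 : |lam| * K ≤ |lam| * ρ ^ 2 := by
          refine mul_le_mul_of_nonneg_left ?_ hl0
          nlinarith
        rw [le_div_iff₀ hK0]; linarith
      have h14 : |lam| * |qB (ll η) e| ≤ (D / K) * (2 * D) :=
        mul_le_mul h12 hqe (abs_nonneg _) (by positivity)
      have h15 : 4 * D ^ 2 / K = 2 * ((D / K) * (2 * D)) := by ring
      rw [h15]; linarith
    have c3 : D / K ≤ D ^ 2 / K := by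
      refine div_le_div_of_nonneg_right ?_ hK0.le
      nlinarith
    have c4 : 5 * D ^ 2 / K = D ^ 2 / K + 4 * D ^ 2 / K := by ring
    rw [c4]; linarith

theorem pf_GL1 : T_GL1 := by
  refine ⟨1000, by norm_num, ?_⟩
  intro ρ D K lam nn a c₀ hρ hD hK hKρ hn hl ha hc
  have hρ0 : 0 < ρ := by linarith
  have hK0 : 0 < K := by linarith
  have hl0 : 0 ≤ |lam| := abs_nonneg _
  set g : Z 2 := gr lam nn a c₀ with hg
  set M : ℝ := max (|lam| * ρ ^ 2) ‖dv g‖ with hM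
  have hMl : 1 / (4 * D) ≤ M := by
    by_cases h1 : 1 / (4 * D) ≤ |lam| * ρ ^ 2
    · exact h1.trans (le_max_left _ _)
    · push Not at h1
      have h2 : 1 ≤ ‖g‖ := by
        have h3 : ‖c₀ - a‖ ≤ 2 * D * ρ ^ 2 := by
          refine (norm_sub_le _ _).trans ?_
          nlinarith [sq_nonneg ρ]
        have h4 : ‖(2 * lam) • (c₀ - a)‖ ≤ 1 := by
          rw [norm_smul, Real.norm_eq_abs, abs_mul, abs_two]
          have h5 : 2 * |lam| * ‖c₀ - a‖ ≤ 2 * |lam| * (2 * D * ρ ^ 2) :=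
            mul_le_mul_of_nonneg_left h3 (by positivity)
          have h6 : 2 * |lam| * (2 * D * ρ ^ 2) = 4 * D * (|lam| * ρ ^ 2) := by ring
          have h7 : 4 * D * (|lam| * ρ ^ 2) ≤ 4 * D * (1 / (4 * D)) :=
            mul_le_mul_of_nonneg_left h1.le (by positivity)
          have h8 : 4 * D * (1 / (4 * D)) = 1 := by field_simp
          linarith
        have h9 : ‖(2 : ℝ) • nn‖ = 2 := by
          rw [norm_smul, hn]; norm_num
        have h10 : (2 : ℝ) • nn = g - (2 * lam) • (c₀ - a) := by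
          rw [hg]; unfold gr; abel
        have h11 : ‖(2 : ℝ) • nn‖ ≤ ‖g‖ + ‖(2 * lam) • (c₀ - a)‖ := by
          rw [h10]; exact norm_sub_le _ _
        linarith
      have h12 : 1 / (4 * D) ≤ 1 := by
        rw [div_le_one (by positivity)]; linarith
      exact h12.trans (h2.trans ((norm_dv g).trans (le_max_right _ _)))
  have hM0 : 0 < M := lt_of_lt_of_le (by positivity) hMl
  have hMi : M⁻¹ ≤ 4 * D := by
    rw [inv_le_comm₀ hM0 (by positivity)]
    rw [one_div] at hMl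
    exact hMl
  refine ⟨-lam / M, Sg lam nn a c₀ / M, M⁻¹ • dv g, ?_, ?_, ?_, ?_⟩
  · rw [abs_div, abs_neg, abs_of_pos hM0, div_le_iff₀ hM0, inv_pow, ← div_eq_inv_mul,
      le_div_iff₀ (by positivity)]
    exact le_max_left _ _
  · rw [norm_smul, Real.norm_eq_abs, abs_of_pos (inv_pos.2 hM0), inv_mul_le_iff₀ hM0, mul_one]
    exact le_max_right _ _
  · rcases max_choice (|lam| * ρ ^ 2) ‖dv g‖ with h | h
    · left
      have h2 : |lam| * ρ ^ 2 = M := by rw [hM]; exact h.symm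
      rw [abs_div, abs_neg, abs_of_pos hM0, le_div_iff₀ hM0, ← h2]
      have : (1 / 2 * ρ⁻¹ ^ 2) * (|lam| * ρ ^ 2) = |lam| / 2 := by field_simp
      rw [this]; linarith
    · right
      have h2 : ‖dv g‖ = M := by rw [hM]; exact h.symm
      rw [norm_smul, Real.norm_eq_abs, abs_of_pos (inv_pos.2 hM0), h2, inv_mul_cancel₀ hM0.ne']
      norm_num
  · intro z y η hz hη hL hS hG
    obtain ⟨h1, h2⟩ := sg_gr hρ hD hK hKρ hn hl ha hz hη hL hS hG
    rw [sgm_eq, dsg_eq]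
    have hD4 : D ^ 4 ≤ D ^ 5 := pow_le_pow_right₀ hD (by norm_num)
    have hD3 : D ^ 3 ≤ D ^ 5 := pow_le_pow_right₀ hD (by norm_num)
    constructor
    · rw [abs_div, abs_of_pos hM0, div_eq_mul_inv]
      calc |Sg lam nn a y| * M⁻¹ ≤ (127 * D ^ 3 * ρ ^ 2 / K) * (4 * D) :=
            mul_le_mul h1 hMi (inv_pos.2 hM0).le (by positivity)
        _ = 508 * D ^ 4 * (ρ ^ 2 / K) := by ring
        _ ≤ 1000 * D ^ 5 * (ρ ^ 2 / K) := by
            refine mul_le_mul_of_nonneg_right ?_ (by positivity)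
            have : 0 ≤ D ^ 4 := by positivity
            linarith
        _ = 1000 * D ^ 5 * ρ ^ 2 / K := by ring
    · rw [abs_div, abs_of_pos hM0, div_eq_mul_inv]
      calc |qB (gr lam nn a y) (ll η)| * M⁻¹ ≤ (5 * D ^ 2 / K) * (4 * D) :=
            mul_le_mul h2 hMi (inv_pos.2 hM0).le (by positivity)
        _ = 20 * D ^ 3 / K := by ring
        _ ≤ 1000 * D ^ 5 / K := by
            refine div_le_div_of_nonneg_right ?_ hK0.le
            have : 0 ≤ D ^ 3 := by positivity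
            linarith

end Pool.Agent.H50.D3
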