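import Pool.Agent.H81.D3.Targets

/-!
MP_ee74d2_an, dimension 3, board d3n_modules, row GSB: Theorem G for planks.
-/

set_option autoImplicit false

namespace Pool.Agent.H50.D3

open MeasureTheory Set
open Pool.Agent.H83.G Pool.Agent.H81.D3
open scoped ENNReal NNReal RealInnerProductSpace

theorem pf_GSB (hRSE : T_RSE) (hGCE : T_GCE) (hCTG : T_CTG) : T_GSB := by
  intro L β hL hβ
  obtain ⟨C₀, hC₀, hC⟩ := hRSE L β hβ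
  have hC0 : 0 < C₀ := by linarith
  refine ⟨C₀ ^ (4 / 3 : ℝ), Real.one_le_rpow hC₀ (by norm_num), ?_⟩
  intro ε Cb R A D H w G P hE hε hCb hR hA hH hD hw hwR hcls hsep htag hP
  have hw1 : (1 : ℝ) ≤ w := by exact_mod_cast hw
  have hw0 : (0 : ℝ) < w := by linarith
  have hR0 : (0 : ℝ) < R := by linarith
  have hRs : 1 ≤ R * (w : ℝ)⁻¹ ^ 2 := by
    rw [inv_pow, ← div_eq_mul_inv, le_div_iff₀ (by positivity)]
    linarith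
  have hcl : ∀ κ : Fin 2 → ℤ, Cls L (1 / 4) (R * (w : ℝ)⁻¹ ^ 2) (C₀ * A) (Gc β w G κ) := by
    intro κ
    exact (hC (1 / 4) R A (w : ℝ)⁻¹ (ctr (w : ℝ)⁻¹ κ) G (by norm_num) (by norm_num) hA
      (inv_pos.2 hw0) (inv_le_one_of_one_le₀ hw1) hRs hcls).1
  set R' : ℝ := R * (w : ℝ)⁻¹ ^ 2 with hR'
  have hR'0 : 0 < R' := by linarith
  have hH10 : 0 < H ^ (10 / 3 : ℝ) := Real.rpow_pos_of_pos hH _
  set Q : ℝ := Cb * R' ^ ε * ((C₀ * A) ^ (4 / 3 : ℝ) * R' ^ (1 / 3 : ℝ)) with hQ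
  have hQ0 : 0 ≤ Q := by positivity
  have hI : ∀ κ, 0 ≤ ∫ ζ, ‖Gc β w G κ ζ‖ ^ 2 := fun κ => integral_nonneg fun ζ => by positivity
  have hcard := hCTG D w P (fun κ => Q * (∫ ζ, ‖Gc β w G κ ζ‖ ^ 2) / H ^ (10 / 3 : ℝ))
    (by linarith) (fun p hp => (hP p hp).1) hsep htag
    (fun κ => div_nonneg (mul_nonneg hQ0 (hI κ)) hH10.le)
    (by
      intro κ _ Y hY hYP
      have h1 := hE R' (C₀ * A) H (Gc β w G κ) Y hRs (by positivity) hH (hcl κ) hY (by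
        intro x hx
        obtain ⟨t, ht⟩ := hYP x hx
        exact (hP _ ht).2)
      rw [le_div_iff₀ hH10]
      refine h1.trans (le_of_eq ?_)
      unfold En43
      rw [hQ]; ring)
  have hsum : ∑ κ ∈ Ks 2 (w : ℝ)⁻¹, Q * (∫ ζ, ‖Gc β w G κ ζ‖ ^ 2) / H ^ (10 / 3 : ℝ) ≤
      Q * (((w : ℝ) ^ 4)⁻¹ * ∫ ζ, ‖G ζ‖ ^ 2) / H ^ (10 / 3 : ℝ) := by
    rw [← Finset.sum_div, ← Finset.mul_sum]
    refine div_le_div_of_nonneg_right (mul_le_mul_of_nonneg_left ?_ hQ0) hH10.le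
    exact hGCE L β R A G w hβ hR hA hw hcls
  have h2 : (P.card : ℝ) * H ^ (10 / 3 : ℝ) ≤ D * (Q * (((w : ℝ) ^ 4)⁻¹ * ∫ ζ, ‖G ζ‖ ^ 2)) := by
    have h3 := hcard.trans (mul_le_mul_of_nonneg_left hsum (by linarith : (0:ℝ) ≤ D))
    rw [← mul_div_assoc, le_div_iff₀ hH10] at h3
    exact h3
  have hR'R : R' ≤ R := by
    rw [hR', inv_pow]
    refine mul_le_of_le_one_right hR0.le (inv_le_one_of_one_le₀ (one_le_pow₀ hw1))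
  have hRe : R' ^ ε ≤ R ^ ε := Real.rpow_le_rpow hR'0.le hR'R hε.le
  have hR3 : R' ^ (1 / 3 : ℝ) * (w : ℝ) ^ (2 / 3 : ℝ) = R ^ (1 / 3 : ℝ) := by
    rw [hR', Real.mul_rpow hR0.le (by positivity), mul_assoc]
    have : ((w : ℝ)⁻¹ ^ 2) ^ (1 / 3 : ℝ) * (w : ℝ) ^ (2 / 3 : ℝ) = 1 := by
      rw [inv_pow, Real.inv_rpow (by positivity), ← Real.rpow_natCast (w : ℝ) 2,
        ← Real.rpow_mul hw0.le]
      norm_num
      rw [inv_mul_cancel₀]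
      positivity
    rw [this, mul_one]
  have hJ : 0 ≤ ∫ ζ, ‖G ζ‖ ^ 2 := integral_nonneg fun ζ => by positivity
  calc (P.card : ℝ) * (w : ℝ) ^ 4 * H ^ (10 / 3 : ℝ) * (w : ℝ) ^ (2 / 3 : ℝ)
      = ((P.card : ℝ) * H ^ (10 / 3 : ℝ)) * ((w : ℝ) ^ 4 * (w : ℝ) ^ (2 / 3 : ℝ)) := by ring
    _ ≤ (D * (Q * (((w : ℝ) ^ 4)⁻¹ * ∫ ζ, ‖G ζ‖ ^ 2))) * ((w : ℝ) ^ 4 * (w : ℝ) ^ (2 / 3 : ℝ)) :=
        mul_le_mul_of_nonneg_right h2 (by positivity)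
    _ = (((w : ℝ) ^ 4)⁻¹ * (w : ℝ) ^ 4) * (D * Cb * R' ^ ε * (C₀ * A) ^ (4 / 3 : ℝ) *
          (R' ^ (1 / 3 : ℝ) * (w : ℝ) ^ (2 / 3 : ℝ)) * ∫ ζ, ‖G ζ‖ ^ 2) := by
        rw [hQ]; ring
    _ = D * Cb * R' ^ ε * (C₀ * A) ^ (4 / 3 : ℝ) * R ^ (1 / 3 : ℝ) * ∫ ζ, ‖G ζ‖ ^ 2 := by
        rw [hR3, inv_mul_cancel₀ (by positivity), one_mul]
    _ ≤ D * Cb * R ^ ε * (C₀ * A) ^ (4 / 3 : ℝ) * R ^ (1 / 3 : ℝ) * ∫ ζ, ‖G ζ‖ ^ 2 := by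
        refine mul_le_mul_of_nonneg_right ?_ hJ
        refine mul_le_mul_of_nonneg_right ?_ (by positivity)
        refine mul_le_mul_of_nonneg_right ?_ (by positivity)
        exact mul_le_mul_of_nonneg_left hRe (by positivity)
    _ = C₀ ^ (4 / 3 : ℝ) * D * Cb * R ^ ε * En43 A R G := by
        unfold En43
        rw [Real.mul_rpow hC0.le hA.le]; ring

end Pool.Agent.H50.D3
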